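import Pool.Agent.W645.FB.Enc
import Pool.Agent.W937.FB.One

/-!
# Arbitrary alphabets
-/

set_option autoImplicit false

namespace Pool.Agent.W645.FB

open Pool.Agent.H344R3.FB Pool.Agent.W937.FB

/-- preimages of regular languages under morphisms of free monoids are regular -/
theorem regular_preimage {α β : Type*} (code : β → List α) {L : Language α} (h : L.IsRegular)
    {L' : Language β} (hL : ∀ v, v ∈ L' ↔ v.flatMap code ∈ L) : L'.IsRegular := by
  obtain ⟨σ, hσ, M, rfl⟩ := h
  refine ⟨σ, hσ, ⟨fun s a => M.evalFrom s (code a), M.start, M.accept⟩, ?_⟩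
  ext v
  rw [hL, DFA.mem_accepts, DFA.mem_accepts, DFA.eval, DFA.eval]
  have key : ∀ (v : List β) (s : σ),
      (DFA.mk (fun s a => M.evalFrom s (code a)) M.start M.accept).evalFrom s v =
        M.evalFrom s (v.flatMap code) := by
    intro v
    induction v with
    | nil => intro s; rfl
    | cons a v ih =>
      intro s
      rw [List.flatMap_cons, DFA.evalFrom_of_append, ← ih]
      rfl
  rw [key]

theorem step_map {α β : Type*} {f : β → α} (hf : Function.Injective f) {n m : ℕ} (hn : 1 ≤ n)
    {v : List β} {V' : List α} (h : Step n m (v.map f) V') :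
    ∃ v', V' = v'.map f ∧ Step n m v v' := by
  obtain ⟨p, x, q, h1, h2⟩ := h
  obtain ⟨v1, v3, rfl, e1, e2⟩ := List.map_eq_append_iff.1 h1
  obtain ⟨v1, v2, rfl, e3, e4⟩ := List.map_eq_append_iff.1 e1
  obtain ⟨k, rfl⟩ : ∃ k, n = k + 1 := ⟨n - 1, by omega⟩
  rw [pw_succ] at e4
  obtain ⟨y, y', rfl, e5, e6⟩ := List.map_eq_append_iff.1 e4
  have hy : y' = pw y k := by
    apply List.map_injective_iff.2 hf
    rw [e6, map_pw, e5]
  subst hy
  refine ⟨v1 ++ pw y (k + 1 + m) ++ v3, ?_, v1, y, v3, ?_, rfl⟩
  · rw [h2, List.map_append, List.map_append, map_pw, e2, e3, e5]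
  · rw [pw_succ]

theorem lang_map_iff {α β : Type*} {f : β → α} (hf : Function.Injective f) {n m : ℕ} (hn : 1 ≤ n)
    {v w : List β} : v.map f ∈ Lang n m (w.map f) ↔ v ∈ Lang n m w := by
  constructor
  · intro h
    have key : ∀ V : List α, Relation.ReflTransGen (Step n m) (w.map f) V →
        ∃ v, V = v.map f ∧ v ∈ Lang n m w := by
      intro V hV
      induction hV with
      | refl => exact ⟨w, rfl, lang_refl _⟩
      | tail _ hs ih =>
        obtain ⟨u, rfl, hu⟩ := ih
        obtain ⟨u', rfl, hs'⟩ := step_map hf hn hs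
        exact ⟨u', rfl, lang_trans hu (Relation.ReflTransGen.single hs')⟩
    obtain ⟨u, hu, hu'⟩ := key _ h
    rw [List.map_injective_iff.2 hf hu]
    exact hu'
  · exact lang_map f

/-- the letters of `f` -/
theorem three_not_regular {α : Type*} {f : Bool → α} (hf : Function.Injective f) {n m : ℕ}
    (hn : 3 ≤ n) (hm : 1 ≤ m) : ¬ (Lang n m ((enc (W6 n m)).map f)).IsRegular := by
  intro h
  apply W6_not_regular hn hm
  refine regular_preimage (fun a => (code a).map f) h fun v => ?_
  rw [← enc_lang hn, ← lang_map_iff hf (by omega)]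
  have : v.flatMap (fun a => (code a).map f) = (enc v).map f := by
    rw [enc, List.map_flatMap]
  rw [this]

end Pool.Agent.W645.FB
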