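import Mathlib

/-!
# A uniform code from six letters to two letters

The six code words have length `13`; the letter number `r` of the code word of `a` is the bit
number `r` of `cdn a`.  Images of words contain no cube with a period smaller than `13`, and the
code words occur only where they should.
-/

set_option autoImplicit false

namespace Pool.Agent.W645.FB

/-- the code words -/
def cds : List ℕ := [1683, 3289, 3433, 3225, 1747, 3369]

/-- the code words -/
def cdn : Fin 6 → ℕ := ![1683, 3289, 3433, 3225, 1747, 3369]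

theorem cdn_mem (a : Fin 6) : cdn a ∈ cds := by
  fin_cases a <;> simp [cdn, cds]

theorem cds_lt : ∀ x ∈ cds, x < 2 ^ 13 := by decide

/-- the image of the infinite word `V` -/
def Ph (V : ℕ → Fin 6) (i : ℕ) : Bool := (cdn (V (i / 13))).testBit (i % 13)

/-- two blocks -/
def ct2 (a b : ℕ) : ℕ := 2 ^ 13 * b + a

/-- four blocks -/
def ct4 (a b c d : ℕ) : ℕ := 2 ^ 13 * (2 ^ 13 * (2 ^ 13 * d + c) + b) + a

theorem Ph_at (V : ℕ → Fin 6) (t : ℕ) {j : ℕ} (hj : j < 13) :
    Ph V (13 * t + j) = (cdn (V t)).testBit j := by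
  unfold Ph
  rw [Nat.mul_add_div (by omega), Nat.div_eq_of_lt hj, Nat.mul_add_mod, Nat.mod_eq_of_lt hj,
    Nat.add_zero]

theorem Ph_two (V : ℕ → Fin 6) (t : ℕ) {j : ℕ} (hj : j < 26) :
    Ph V (13 * t + j) = (ct2 (cdn (V t)) (cdn (V (t + 1)))).testBit j := by
  unfold ct2
  rw [Nat.testBit_two_pow_mul_add _ (cds_lt _ (cdn_mem _))]
  split_ifs with h
  · exact Ph_at V t h
  · rw [show 13 * t + j = 13 * (t + 1) + (j - 13) by omega, Ph_at V _ (by omega)]

theorem Ph_four (V : ℕ → Fin 6) (t : ℕ) {j : ℕ} (hj : j < 52) :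
    Ph V (13 * t + j) = (ct4 (cdn (V t)) (cdn (V (t + 1))) (cdn (V (t + 2)))
      (cdn (V (t + 3)))).testBit j := by
  unfold ct4
  rw [Nat.testBit_two_pow_mul_add _ (cds_lt _ (cdn_mem _))]
  split_ifs with h
  · exact Ph_at V t h
  rw [Nat.testBit_two_pow_mul_add _ (cds_lt _ (cdn_mem _))]
  split_ifs with h'
  · rw [show 13 * t + j = 13 * (t + 1) + (j - 13) by omega, Ph_at V _ h']
  · rw [show 13 * t + j = 13 * (t + 2) + (j - 13 - 13) by omega, Ph_two V _ (by omega)]
    rfl

/-- the check for short cubes -/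
def cubeChk : Bool :=
  cds.all fun a => cds.all fun b => cds.all fun c => cds.all fun d =>
    (List.range 12).all fun P => (List.range 13).all fun o =>
      ((ct4 a b c d ^^^ (ct4 a b c d >>> (P + 1))) >>> o) % 2 ^ (2 * (P + 1)) != 0

theorem cubeChk_true : cubeChk = true := by decide +kernel

/-- the check for the positions of the code words -/
def syncChk : Bool :=
  cds.all fun a => cds.all fun b => cds.all fun c =>
    (List.range 12).all fun o => (ct2 b c >>> (o + 1)) % 2 ^ 13 != a

theorem syncChk_true : syncChk = true := by decide +kernel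

theorem exists_bit {X l : ℕ} (h : X % 2 ^ l ≠ 0) : ∃ j < l, X.testBit j = true := by
  by_contra hc
  push Not at hc
  apply h
  apply Nat.eq_of_testBit_eq
  intro i
  rw [Nat.testBit_mod_two_pow, Nat.zero_testBit]
  by_cases hi : i < l
  · simp [hi, hc i hi]
  · simp [hi]

theorem Ph_cube (V : ℕ → Fin 6) {P : ℕ} (hP : 0 < P) (hP' : P < 13) (o : ℕ) :
    ∃ j < 2 * P, Ph V (o + j) ≠ Ph V (o + j + P) := by
  have h := cubeChk_true
  set t := o / 13 with ht
  have h1 : 13 * t + o % 13 = o := Nat.div_add_mod _ _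
  have h2 : o % 13 < 13 := Nat.mod_lt _ (by omega)
  unfold cubeChk at h
  rw [List.all_eq_true] at h
  have h := h _ (cdn_mem (V t))
  rw [List.all_eq_true] at h
  have h := h _ (cdn_mem (V (t + 1)))
  rw [List.all_eq_true] at h
  have h := h _ (cdn_mem (V (t + 2)))
  rw [List.all_eq_true] at h
  have h := h _ (cdn_mem (V (t + 3)))
  rw [List.all_eq_true] at h
  have h := h (P - 1) (List.mem_range.2 (by omega))
  rw [List.all_eq_true] at h
  have h := h (o % 13) (List.mem_range.2 h2)
  rw [show P - 1 + 1 = P by omega, bne_iff_ne] at h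
  obtain ⟨j, hj, hb⟩ := exists_bit h
  refine ⟨j, hj, ?_⟩
  rw [Nat.testBit_shiftRight, Nat.testBit_xor, Nat.testBit_shiftRight] at hb
  rw [← h1, Nat.add_assoc, Ph_four V t (by omega), Nat.add_assoc, Ph_four V t (by omega),
    show o % 13 + j + P = P + (o % 13 + j) by omega]
  intro he
  rw [he] at hb
  simp at hb

theorem Ph_sync (V : ℕ → Fin 6) (a : Fin 6) {i : ℕ}
    (h : ∀ j < 13, (cdn a).testBit j = Ph V (i + j)) : 13 ∣ i := by
  by_contra hd
  have hc := syncChk_true
  set t := i / 13 with ht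
  have h1 : 13 * t + i % 13 = i := Nat.div_add_mod _ _
  have h2 : i % 13 < 13 := Nat.mod_lt _ (by omega)
  have h3 : 0 < i % 13 := by
    rcases Nat.eq_zero_or_pos (i % 13) with h0 | h0
    · exact absurd (Nat.dvd_of_mod_eq_zero h0) hd
    · exact h0
  unfold syncChk at hc
  rw [List.all_eq_true] at hc
  have hc := hc _ (cdn_mem a)
  rw [List.all_eq_true] at hc
  have hc := hc _ (cdn_mem (V t))
  rw [List.all_eq_true] at hc
  have hc := hc _ (cdn_mem (V (t + 1)))
  rw [List.all_eq_true] at hc
  have hc := hc (i % 13 - 1) (List.mem_range.2 (by omega))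
  rw [show i % 13 - 1 + 1 = i % 13 by omega, bne_iff_ne] at hc
  apply hc
  apply Nat.eq_of_testBit_eq
  intro j
  rw [Nat.testBit_mod_two_pow, Nat.testBit_shiftRight]
  by_cases hj : j < 13
  · rw [h j hj, ← h1, Nat.add_assoc, Ph_two V t (by omega)]
    simp [hj]
  · have : (cdn a).testBit j = false :=
      Nat.testBit_lt_two_pow (lt_of_lt_of_le (cds_lt _ (cdn_mem a))
        (Nat.pow_le_pow_right (by norm_num) (by omega)))
    rw [this]
    simp [hj]

theorem cdn_prefix : ∀ a b : Fin 6, (∀ j < 7, (cdn a).testBit j = (cdn b).testBit j) → a = b := by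
  decide

theorem cdn_suffix : ∀ a b : Fin 6, (∀ j < 7, (cdn a).testBit (6 + j) = (cdn b).testBit (6 + j)) →
    a = b := by
  decide

end Pool.Agent.W645.FB
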