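import Pool.Agent.W645.FB.Up

/-!
# A word over six letters whose language is not regular
-/

set_option autoImplicit false

namespace Pool.Agent.W645.FB

open Pool.Agent.H344R3.FB Pool.Agent.Helper131.Tern

theorem mem_pw {α : Type*} {x : List α} {k : ℕ} {a : α} (h : a ∈ pw x k) : a ∈ x := by
  obtain ⟨l, h1, h2⟩ := List.mem_flatten.1 h
  rwa [List.eq_of_mem_replicate h1] at h2

theorem mk_step {α : Type*} {g : α} {n m : ℕ} (hn : 2 ≤ n) {Y : List (List α)} (hY : Fr g Y)
    {v' : List α} (h : Step n m (mk g Y) v') : ∃ Y', Fr g Y' ∧ v' = mk g Y' ∧ (Y' = Y ∨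
      (∃ Y1 y y' Y2, Y = Y1 ++ y :: Y2 ∧ Y' = Y1 ++ y' :: Y2 ∧ Step n m y y') ∨
      (∃ Y1 y Y2, y ≠ [] ∧ Y2 ≠ [] ∧ Y = Y1 ++ pw y (n - 1) ++ Y2 ∧
        Y' = Y1 ++ pw y (n - 1 + m) ++ Y2)) := by
  obtain ⟨p, x, q, h1, h2⟩ := h
  by_cases hx : x = []
  · subst hx
    rw [pw_nil] at h1 h2
    exact ⟨Y, hY, by rw [h2, h1], Or.inl rfl⟩
  rcases mk_parse hY hn hx h1 with ⟨Y1, y, Y2, p', q', e1, e2, e3⟩ |
    ⟨Y1, y, Y2, hy, hY2, e1, e2⟩
  · refine ⟨_, ?_, by rw [h2, e3], Or.inr (Or.inl ⟨Y1, y, _, Y2, e1, rfl, p', x, q', e2, rfl⟩)⟩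
    rw [e1] at hY
    have hy : g ∉ y := hY y (by simp)
    refine hY.left.append ?_
    intro z hz
    rcases List.mem_cons.1 hz with rfl | hz
    · intro hg
      apply hy
      rw [e2]
      simp only [List.mem_append] at hg ⊢
      rcases hg with (hg | hg) | hg
      · exact Or.inl (Or.inl hg)
      · refine Or.inl (Or.inr ?_)
        obtain ⟨k, rfl⟩ : ∃ k, n = k + 1 := ⟨n - 1, by omega⟩
        rw [pw_succ]
        exact List.mem_append_left _ (mem_pw hg)
      · exact Or.inr hg
    · exact hY z (by simp [hz])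
  · refine ⟨Y1 ++ pw y (n - 1 + m) ++ Y2, ?_, ?_, Or.inr (Or.inr ⟨Y1, y, Y2, hy, hY2, e1, rfl⟩)⟩
    · rw [e1] at hY
      refine (hY.left.left.append ?_).append hY.right
      intro z hz
      have hz' : z ∈ pw y (n - 1) := by
        obtain ⟨k, hk⟩ : ∃ k, n - 1 = k + 1 := ⟨n - 2, by omega⟩
        rw [hk, pw_succ]
        exact List.mem_append_left _ (mem_pw hz)
      exact hY.left.right z hz'
    · rw [h2, show n + m = n - 1 + m + 1 by omega, e2]

/-- the possible states -/
def Inv (n m : ℕ) (B B' : List (Fin 6)) (v : List (Fin 6)) : Prop :=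
  ∃ Y, Fr 5 Y ∧ v = mk 5 Y ∧
    ((Y.length = n ∧ ∃ y0 y1 Y', Y = y0 :: y1 :: Y' ∧ y0 ∈ Lang n m B ∧ y1 ∈ Lang n m B') ∨
    (Y.length = n + m ∧ ∃ s Z z, s ∈ Lang n m B ∧ s ∈ Lang n m B' ∧ Y = Z ++ [z] ∧
      ∀ y ∈ Z, y ∈ Lang n m s) ∨ n + m < Y.length)

theorem inv_step {n m : ℕ} (hn : 3 ≤ n) (hm : 1 ≤ m) {B B' v v' : List (Fin 6)}
    (h : Inv n m B B' v) (hs : Step n m v v') : Inv n m B B' v' := by
  obtain ⟨Y, hY, rfl, h⟩ := h
  obtain ⟨Y', hY', rfl, h'⟩ := mk_step (by omega) hY hs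
  rcases h' with rfl | ⟨Y1, y, y', Y2, e1, e2, e3⟩ | ⟨Y1, y, Y2, hy, hY2, e1, e2⟩
  · exact ⟨Y', hY, rfl, h⟩
  · have hlen : Y'.length = Y.length := by rw [e1, e2]; simp
    refine ⟨Y', hY', rfl, ?_⟩
    rw [hlen]
    rcases h with ⟨h1, y0, y1, Y3, h2, h3, h4⟩ | ⟨h1, s, Z, z, h2, h3, h4, h5⟩ | h1
    · left
      refine ⟨h1, ?_⟩
      rw [h2] at e1
      cases Y1 with
      | nil =>
        rw [List.nil_append, List.cons.injEq] at e1
        refine ⟨y', y1, Y3, by rw [e2, ← e1.2]; rfl, ?_, h4⟩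
        rw [← e1.1] at e3
        exact lang_trans h3 (Relation.ReflTransGen.single e3)
      | cons a Y1 =>
        rw [List.cons_append, List.cons.injEq] at e1
        obtain ⟨rfl, e1⟩ := e1
        cases Y1 with
        | nil =>
          rw [List.nil_append, List.cons.injEq] at e1
          refine ⟨y0, y', Y3, by rw [e2, ← e1.2]; rfl, h3, ?_⟩
          rw [← e1.1] at e3
          exact lang_trans h4 (Relation.ReflTransGen.single e3)
        | cons b Y1 =>
          rw [List.cons_append, List.cons.injEq] at e1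
          obtain ⟨rfl, e1⟩ := e1
          exact ⟨y0, y1, Y1 ++ y' :: Y2, by rw [e2]; rfl, h3, h4⟩
    · right; left
      refine ⟨h1, s, ?_⟩
      rw [h4] at e1
      rcases List.eq_nil_or_concat Y2 with rfl | ⟨Y3, z', rfl⟩
      · have := List.append_inj' e1 rfl
        refine ⟨Y1, y', h2, h3, e2, ?_⟩
        rw [← this.1]
        exact h5
      · have e4 : Z ++ [z] = (Y1 ++ y :: Y3) ++ [z'] := by rw [e1]; simp
        have := List.append_inj' e4 rfl
        refine ⟨Y1 ++ y' :: Y3, z', h2, h3, by rw [e2]; simp, ?_⟩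
        intro x hx
        rw [List.mem_append, List.mem_cons] at hx
        rcases hx with hx | rfl | hx
        · exact h5 x (by rw [this.1]; simp [hx])
        · exact lang_trans (h5 y (by rw [this.1]; simp)) (Relation.ReflTransGen.single e3)
        · exact h5 x (by rw [this.1]; simp [hx])
    · right; right; exact h1
  · have hy0 : 0 < y.length := List.length_pos_of_ne_nil hy
    have hY20 : 0 < Y2.length := List.length_pos_of_ne_nil hY2
    have l1 : Y.length = Y1.length + (n - 1) * y.length + Y2.length := by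
      rw [e1]
      simp only [List.length_append, pw_length]
    have l2 : Y'.length = Y1.length + (n - 1 + m) * y.length + Y2.length := by
      rw [e2]
      simp only [List.length_append, pw_length]
    have l3 : Y'.length = Y.length + m * y.length := by
      rw [l1, l2, Nat.add_mul]
      omega
    have l4 : 0 < m * y.length := Nat.mul_pos (by omega) hy0
    refine ⟨Y', hY', rfl, ?_⟩
    rcases h with ⟨h1, y0, y1, Y3, h2, h3, h4⟩ | ⟨h1, -⟩ | h1
    · right; left
      have l5 : (n - 1) * 1 ≤ (n - 1) * y.length := Nat.mul_le_mul_left _ hy0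
      have l6 : (n - 1) * y.length ≤ (n - 1) * 1 := by omega
      have l7 : y.length ≤ 1 := Nat.le_of_mul_le_mul_left l6 (by omega)
      have l8 : y.length = 1 := by omega
      obtain ⟨s, rfl⟩ := List.length_eq_one_iff.1 l8
      have l9 : Y1 = [] := List.length_eq_zero_iff.1 (by omega)
      have l10 : Y2.length = 1 := by omega
      obtain ⟨z, rfl⟩ := List.length_eq_one_iff.1 l10
      subst l9
      refine ⟨by rw [l3, h1, l8]; omega, s, pw [s] (n - 1 + m), z, ?_, ?_, ?_, ?_⟩
      · obtain ⟨j, hj⟩ : ∃ j, n - 1 = j + 2 := ⟨n - 3, by omega⟩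
        rw [hj, pw_succ, pw_succ, h2] at e1
        simp only [List.nil_append, List.cons_append, List.cons.injEq] at e1
        rw [← e1.1]
        exact h3
      · obtain ⟨j, hj⟩ : ∃ j, n - 1 = j + 2 := ⟨n - 3, by omega⟩
        rw [hj, pw_succ, pw_succ, h2] at e1
        simp only [List.nil_append, List.cons_append, List.cons.injEq] at e1
        rw [← e1.2.1]
        exact h4
      · rw [e2]; rfl
      · intro y hy
        rw [List.mem_singleton.1 (mem_pw hy)]
        exact lang_refl _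
    · right; right; omega
    · right; right; omega

theorem inv_lang {n m : ℕ} (hn : 3 ≤ n) (hm : 1 ≤ m) {B B' w v : List (Fin 6)}
    (h : Inv n m B B' w) (hv : v ∈ Lang n m w) : Inv n m B B' v := by
  have hv' : Relation.ReflTransGen (Step n m) w v := hv
  clear hv
  induction hv' with
  | refl => exact h
  | tail _ hs ih => exact inv_step hn hm ih hs

theorem five_tw {n m : ℕ} (l : List Pt) : (5 : Fin 6) ∉ tw n m l := by
  induction l with
  | nil => simp
  | cons u l ih =>
    have e : tw n m (u :: l) = (4 :: body n m u) ++ tw n m l := by simp [tw]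
    rw [e, List.mem_append, List.mem_cons]
    rintro ((h | h) | h)
    · exact absurd h (by decide)
    · exact absurd (body_mem h) (by decide)
    · exact ih h

section main

variable (n m : ℕ)

/-- the number `k` -/
def kk : ℕ := (n + 1) * m - 1

/-- the first seed word -/
def B1 : List (Fin 6) := pw (tw n m (P1 (kk n m))) n

/-- the second seed word -/
def B2 : List (Fin 6) := pw (tw n m (P2 (2 * kk n m + 1))) n

/-- the rigid word number `j` -/
def tj (j : ℕ) : List (Fin 6) :=
  tw n m (TL (2 * kk n m + 1) ((2 * (2 * kk n m + 1) + 1) * (n + m * j)))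

/-- the word -/
def W6 : List (Fin 6) := mk 5 (B1 n m :: B2 n m :: List.replicate (n - 2) (B1 n m))

variable {n m}

theorem kk_spec (hm : 1 ≤ m) : kk n m + 1 = (n + 1) * m ∧ n ≤ kk n m := by
  have : (n + 1) * 1 ≤ (n + 1) * m := Nat.mul_le_mul_left _ hm
  unfold kk
  omega

theorem tj_B1 (hm : 1 ≤ m) (j : ℕ) : tj n m j ∈ Lang n m (B1 n m) := by
  obtain ⟨h1, h2⟩ := kk_spec (n := n) hm
  exact lang_trans (pw_up _ j _ (le_refl _)) (TL_up (P1_up h1 h2) _)

theorem tj_B2 (j : ℕ) : tj n m j ∈ Lang n m (B2 n m) :=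
  lang_trans (pw_up _ j _ (le_refl _)) (TL_up P2_up _)

theorem five_B1 : (5 : Fin 6) ∉ B1 n m := fun h => five_tw _ (mem_pw h)

theorem five_B2 : (5 : Fin 6) ∉ B2 n m := fun h => five_tw _ (mem_pw h)

theorem inter_good (hn : 2 ≤ n) (hm : 1 ≤ m) {s : List (Fin 6)} (h1 : s ∈ Lang n m (B1 n m))
    (h2 : s ∈ Lang n m (B2 n m)) :
    ∃ l, s = tw n m l ∧ ∀ u ∈ l, GT (2 * kk n m + 1) u := by
  rw [B1, ← tw_pw] at h1
  rw [B2, ← tw_pw] at h2
  obtain ⟨l, e1, e2⟩ := lang_tw hn hm (G := fun u => 1 ≤ u 0 + u 1) (by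
    intro u v huv hu
    have h0 : u 0 ≤ v 0 := huv 0
    have h1 : u 1 ≤ v 1 := huv 1
    omega) (by
    intro u hu
    have := mem_pw hu
    simp only [P1, List.mem_append, List.mem_singleton, List.mem_replicate] at this
    rcases this with ⟨-, rfl⟩ | rfl | ⟨-, rfl⟩ | rfl | ⟨-, rfl⟩ <;> simp [tp]) h1
  obtain ⟨l', e3, e4⟩ := lang_tw hn hm (G := fun u => 2 * (2 * kk n m + 1) ≤ u 2 + u 3) (by
    intro u v huv hu
    have h0 : u 2 ≤ v 2 := huv 2
    have h1 : u 3 ≤ v 3 := huv 3
    omega) (by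
    intro u hu
    have := mem_pw hu
    rw [P2, List.mem_map] at this
    obtain ⟨i, hi, rfl⟩ := this
    simp only [Matrix.cons_val]
    omega) h2
  have : l = l' := tw_inj hm (by rw [← e1, ← e3])
  subst this
  exact ⟨l, e1, fun u hu => ⟨e2 u hu, e4 u hu⟩⟩

theorem mem_W6 (hn : 3 ≤ n) (hm : 1 ≤ m) (j : ℕ) :
    mk 5 (tj n m j :: List.replicate (n + m - 1) (tj n m j)) ∈ Lang n m (W6 n m) := by
  have h1 : mk 5 (List.replicate n (tj n m j)) ∈ Lang n m (W6 n m) := by
    obtain ⟨k, hk⟩ : ∃ k, n = k + 2 := ⟨n - 2, by omega⟩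
    have e : List.replicate n (tj n m j) = tj n m j :: tj n m j :: List.replicate k (tj n m j) := by
      rw [hk]; rfl
    rw [e, W6, show n - 2 = k by omega]
    have e2 : ∀ (y : List (Fin 6)) (Y : List (List (Fin 6))), mk 5 (y :: Y) =
        ([5] ++ y) ++ mk 5 Y := by intro y Y; simp
    simp only [e2]
    refine lang_append (lang_append (lang_refl _) (tj_B1 hm j)) (lang_append
      (lang_append (lang_refl _) (tj_B2 j)) ?_)
    clear hk e
    induction k with
    | zero => exact lang_refl _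
    | succ k ih =>
      rw [List.replicate_succ, List.replicate_succ, e2, e2]
      exact lang_append (lang_append (lang_refl _) (tj_B1 hm j)) ih
  have e3 : ∀ k, List.replicate k (tj n m j) = pw [tj n m j] k := by
    intro k
    have := pw_replicate (tj n m j) 1 k
    rw [Nat.mul_one] at this
    rw [← this]
    rfl
  have e4 : tj n m j :: List.replicate (n + m - 1) (tj n m j) = pw [tj n m j] (n + m * 1) := by
    rw [← e3, ← List.replicate_succ]
    congr 1
    omega
  rw [e4, mk_pw]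
  rw [e3, mk_pw] at h1
  exact lang_trans h1 (pw_up _ 1 _ (le_refl _))

theorem inv_W6 (hn : 3 ≤ n) : Inv n m (B1 n m) (B2 n m) (W6 n m) := by
  refine ⟨_, ?_, rfl, Or.inl ⟨?_, _, _, _, rfl, lang_refl _, lang_refl _⟩⟩
  · intro y hy
    rcases List.mem_cons.1 hy with rfl | hy
    · exact five_B1
    rcases List.mem_cons.1 hy with rfl | hy
    · exact five_B2
    · rw [(List.mem_replicate.1 hy).2]
      exact five_B1
  · simp
    omega

theorem key (hn : 3 ≤ n) (hm : 1 ≤ m) {i j : ℕ}
    (h : mk 5 (tj n m i :: List.replicate (n + m - 1) (tj n m j)) ∈ Lang n m (W6 n m)) :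
    i = j := by
  obtain ⟨Y, hY, e, h1⟩ := inv_lang hn hm (inv_W6 hn) h
  have e2 := mk_inj (g := (5 : Fin 6)) (by
    intro y hy
    rcases List.mem_cons.1 hy with rfl | hy
    · exact five_tw _
    · rw [(List.mem_replicate.1 hy).2]
      exact five_tw _) hY e
  subst e2
  have hlen : (tj n m i :: List.replicate (n + m - 1) (tj n m j)).length = n + m := by
    simp
    omega
  rw [hlen] at h1
  rcases h1 with ⟨h1, -⟩ | ⟨-, s, Z, z, h2, h3, h4, h5⟩ | h1
  · omega
  · have hZ : Z = tj n m i :: List.replicate (n + m - 2) (tj n m j) := by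
      have h6 : tj n m i :: List.replicate (n + m - 1) (tj n m j) =
          (tj n m i :: List.replicate (n + m - 2) (tj n m j)) ++ [tj n m j] := by
        rw [List.cons_append, ← List.replicate_succ']
        congr 2
        omega
      rw [h6] at h4
      exact (List.append_inj' h4 rfl).1.symm
    have hi : tj n m i ∈ Lang n m s := h5 _ (by rw [hZ]; simp)
    have hj : tj n m j ∈ Lang n m s := h5 _ (by rw [hZ]; simp; omega)
    obtain ⟨l, rfl, hl⟩ := inter_good (by omega) hm h2 h3
    have h7 := rigid (by omega) hm (by omega) hl hi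
    have h8 := rigid (by omega) hm (by omega) hl hj
    rw [h7] at h8
    have h9 := Nat.eq_of_mul_eq_mul_left (by omega) h8
    have h10 : m * i = m * j := by omega
    exact Nat.eq_of_mul_eq_mul_left (by omega) h10
  · omega

theorem W6_not_regular (hn : 3 ≤ n) (hm : 1 ≤ m) : ¬ (Lang n m (W6 n m)).IsRegular := by
  rintro ⟨σ, _, M, hM⟩
  obtain ⟨i, j, hij, he⟩ := Finite.exists_ne_map_eq_of_infinite
    (fun j : ℕ => M.eval (5 :: tj n m j))
  apply hij
  apply key hn hm
  have e : ∀ a b : ℕ, mk 5 (tj n m a :: List.replicate (n + m - 1) (tj n m b)) =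
      (5 :: tj n m a) ++ mk 5 (List.replicate (n + m - 1) (tj n m b)) := by
    intro a b
    simp
  have h1 := mem_W6 hn hm j
  rw [← hM, e, DFA.mem_accepts, DFA.eval, DFA.evalFrom_of_append] at h1 ⊢
  have he' : M.evalFrom M.start (5 :: tj n m i) = M.evalFrom M.start (5 :: tj n m j) := he
  rw [he']
  exact h1

end main

end Pool.Agent.W645.FB
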