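import Pool.Agent.W645.FB.Bin
import Pool.Agent.W645.FB.Six

/-!
# Steps between coded words
-/

set_option autoImplicit false

namespace Pool.Agent.W645.FB

open Pool.Agent.H344R3.FB

section general

variable {α : Type*}

theorem pw_rot' (x y : List α) (k : ℕ) : pw (x ++ y) k ++ x = x ++ pw (y ++ x) k := by
  induction k with
  | zero => simp
  | succ k ih =>
    rw [pw_succ, pw_succ, List.append_assoc, ih]
    simp

/-- two decompositions with nearly the same place and the same period -/
theorem shift_one {z x s1 s2 p q : List α} {n : ℕ} (hn : 2 ≤ n) (hz : z.length = x.length)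
    (h1 : s1.length ≤ p.length) (h2 : p.length ≤ s1.length + x.length)
    (h : s1 ++ pw z n ++ s2 = p ++ pw x n ++ q) (j : ℕ) :
    s1 ++ pw z j ++ s2 = p ++ pw x j ++ q := by
  obtain ⟨k, rfl⟩ : ∃ k, n = k + 2 := ⟨n - 2, by omega⟩
  obtain ⟨g, rfl⟩ : ∃ g, p = s1 ++ g := by
    have h3 : s1 <+: p := by
      apply List.prefix_of_prefix_length_le (l₃ := p ++ pw x (k + 2) ++ q) _ _ h1
      · rw [← h, List.append_assoc]; exact List.prefix_append _ _
      · rw [List.append_assoc]; exact List.prefix_append _ _
    obtain ⟨g, hg⟩ := h3
    exact ⟨g, hg.symm⟩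
  rw [List.append_assoc, List.append_assoc, List.append_assoc] at h
  have h := List.append_cancel_left h
  rw [List.length_append] at h2
  rw [pw_succ] at h
  obtain ⟨z', rfl⟩ : ∃ z', z = g ++ z' := by
    have h3 : g <+: z := by
      apply List.prefix_of_prefix_length_le (l₃ := g ++ (pw x (k + 2) ++ q))
      · exact List.prefix_append _ _
      · rw [← h, List.append_assoc]; exact List.prefix_append _ _
      · omega
    obtain ⟨z', hg⟩ := h3
    exact ⟨z', hg.symm⟩
  rw [List.length_append] at hz
  rw [List.append_assoc, List.append_assoc] at h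
  have h := List.append_cancel_left h
  rw [pw_succ, pw_succ] at h
  have hx : x = z' ++ g := by
    have e1 : (z' ++ g) <+: (x ++ pw x (k + 1)) ++ q := by
      rw [← h]
      refine ⟨z' ++ pw (g ++ z') k ++ s2, by simp⟩
    have e2 : x <+: (x ++ pw x (k + 1)) ++ q := by
      rw [List.append_assoc]; exact List.prefix_append _ _
    have e3 := List.prefix_of_prefix_length_le e2 e1 (by rw [List.length_append]; omega)
    exact e3.eq_of_length (by rw [List.length_append]; omega)
  subst hx
  have h4 : s2 = g ++ q := by
    have e1 : z' ++ ((g ++ z') ++ pw (g ++ z') k ++ s2) =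
        ((z' ++ g) ++ pw (z' ++ g) (k + 1)) ++ q := h
    rw [← pw_succ] at e1
    have e2 : ((z' ++ g) ++ pw (z' ++ g) (k + 1)) = z' ++ (pw (g ++ z') (k + 1) ++ g) := by
      rw [List.append_assoc, ← pw_rot']
    rw [e2, List.append_assoc] at e1
    have e3 := List.append_cancel_left e1
    rw [List.append_assoc] at e3
    exact List.append_cancel_left e3
  subst h4
  have := pw_rot' g z' j
  rw [List.append_assoc, List.append_assoc, ← List.append_assoc (pw (g ++ z') j), this]
  simp

theorem shift_two {z x s1 s2 p q : List α} {n : ℕ} (hn : 2 ≤ n) (hz : z.length = x.length)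
    (h1 : s1.length ≤ p.length + x.length) (h2 : p.length ≤ s1.length + x.length)
    (h : s1 ++ pw z n ++ s2 = p ++ pw x n ++ q) (j : ℕ) :
    s1 ++ pw z j ++ s2 = p ++ pw x j ++ q := by
  rcases Nat.le_total s1.length p.length with h3 | h3
  · exact shift_one hn hz h3 h2 h j
  · exact (shift_one hn hz.symm h3 (by omega) h.symm j).symm

theorem power_of_per {v : List α} {k : ℕ} : ∀ (n a : ℕ), a + (n + 1) * k ≤ v.length →
    (∀ s, a ≤ s → s < a + n * k → v[s]? = v[s + k]?) →
    v.drop a = pw ((v.drop a).take k) (n + 1) ++ v.drop (a + (n + 1) * k) := by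
  intro n
  induction n with
  | zero =>
    intro a _ _
    rw [pw_one, Nat.zero_add, Nat.one_mul, ← List.drop_drop]
    exact (List.take_append_drop k _).symm
  | succ n ih =>
    intro a h1 h2
    have h3 : a + (n + 1 + 1) * k = a + k + (n + 1) * k := by ring
    have ih := ih (a + k) (by omega) (by
      intro s hs1 hs2
      apply h2 s (by omega)
      rw [Nat.succ_mul]
      omega)
    have h4 : (v.drop (a + k)).take k = (v.drop a).take k := by
      apply List.ext_getElem?
      intro i
      rw [List.getElem?_take, List.getElem?_take]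
      split_ifs with hi
      · rw [List.getElem?_drop, List.getElem?_drop]
        have h5 : k ≤ (n + 1) * k := by
          rw [Nat.succ_mul]; omega
        rw [h2 (a + i) (by omega) (by omega)]
        congr 1
        omega
      · rfl
    rw [h3, pw_succ, List.append_assoc, ← h4, ← ih, h4, ← List.drop_drop]
    exact (List.take_append_drop k _).symm

end general

/-- the code word of a letter -/
def code (a : Fin 6) : List Bool := (List.range 13).map fun j => (cdn a).testBit j

/-- the code of a word -/
def enc (v : List (Fin 6)) : List Bool := v.flatMap code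

theorem code_length (a : Fin 6) : (code a).length = 13 := by simp [code]

@[simp] theorem enc_nil : enc [] = [] := rfl

@[simp] theorem enc_cons (a : Fin 6) (v : List (Fin 6)) : enc (a :: v) = code a ++ enc v := rfl

@[simp] theorem enc_append (u v : List (Fin 6)) : enc (u ++ v) = enc u ++ enc v := by
  simp [enc]

theorem enc_length (v : List (Fin 6)) : (enc v).length = 13 * v.length := by
  induction v with
  | nil => rfl
  | cons a v ih => rw [enc_cons, List.length_append, code_length, ih, List.length_cons]; ring

theorem enc_pw (v : List (Fin 6)) (k : ℕ) : enc (pw v k) = pw (enc v) k := by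
  induction k with
  | zero => simp
  | succ k ih => rw [pw_succ, pw_succ, enc_append, ih]

/-- a word as an infinite word -/
def ext (v : List (Fin 6)) (s : ℕ) : Fin 6 := v.getD s 0

theorem ext_get {v : List (Fin 6)} {s : ℕ} (h : s < v.length) : v[s]? = some (ext v s) := by
  rw [ext, List.getD_eq_getElem?_getD, List.getElem?_eq_getElem h]
  rfl

theorem enc_get (v : List (Fin 6)) : ∀ {i : ℕ}, i < 13 * v.length →
    (enc v)[i]? = some (Ph (ext v) i) := by
  induction v with
  | nil => intro i hi; simp at hi
  | cons a v ih =>
    intro i hi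
    rw [List.length_cons] at hi
    rw [enc_cons]
    by_cases h : i < 13
    · rw [List.getElem?_append_left (by rw [code_length]; exact h)]
      have := Ph_at (ext (a :: v)) 0 h
      rw [Nat.mul_zero, Nat.zero_add] at this
      rw [this]
      simp [code, ext, h]
    · rw [List.getElem?_append_right (by rw [code_length]; omega), code_length,
        ih (by omega)]
      congr 1
      unfold Ph
      have h1 : i / 13 = (i - 13) / 13 + 1 := by omega
      have h2 : i % 13 = (i - 13) % 13 := by omega
      rw [h1, h2]
      rfl

theorem enc_inj {u v : List (Fin 6)} (h : enc u = enc v) : u = v := by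
  have hl : u.length = v.length := by
    have := congrArg List.length h
    rw [enc_length, enc_length] at this
    omega
  apply List.ext_getElem? 
  intro s
  by_cases hs : s < u.length
  · rw [ext_get hs, ext_get (by omega), Option.some.injEq]
    apply cdn_prefix
    intro j hj
    rw [← Ph_at _ s (by omega), ← Ph_at _ s (by omega)]
    have h1 := enc_get u (i := 13 * s + j) (by omega)
    rw [h, enc_get v (by omega), Option.some.injEq] at h1
    exact h1.symm
  · rw [List.getElem?_eq_none (by omega), List.getElem?_eq_none (by omega)]

theorem enc_step {n m : ℕ} (hn : 3 ≤ n) {v : List (Fin 6)} {V' : List Bool}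
    (h : Step n m (enc v) V') : ∃ v', V' = enc v' ∧ Step n m v v' := by
  obtain ⟨p, x, q, h1, h2⟩ := h
  by_cases hx : x = []
  · subst hx
    rw [pw_nil] at h1 h2
    exact ⟨v, by rw [h2, h1], [], [], v, by simp, by simp⟩
  have hP : 0 < x.length := List.length_pos_of_ne_nil hx
  set P := x.length with hPd
  set o := p.length with ho
  have hlen : 13 * v.length = o + n * P + q.length := by
    rw [← enc_length, h1]
    simp only [List.length_append, pw_length, ← ho, ← hPd]
  obtain ⟨n', hn'⟩ : ∃ n', n = n' + 1 := ⟨n - 1, by omega⟩
  have hnP : n * P = n' * P + P := by rw [hn', Nat.succ_mul]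
  have h2P : 2 * P ≤ n' * P := Nat.mul_le_mul_right _ (by omega)
  have hper : ∀ j, j < n' * P → Ph (ext v) (o + j) = Ph (ext v) (o + j + P) := by
    intro j hj
    have e : ∀ i, i < n * P → (enc v)[o + i]? = (pw x n)[i]? := by
      intro i hi
      rw [h1, List.append_assoc, List.getElem?_append_right (by omega),
        List.getElem?_append_left (by rw [pw_length, ← ho, ← hPd]; omega)]
      congr 1
      omega
    have h3 := per_pw x n j (by rw [pw_length, ← hPd]; omega)
    rw [← e j (by omega), ← hPd, ← e (j + P) (by omega), enc_get v (by omega),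
      enc_get v (by omega), Option.some.injEq] at h3
    rw [h3]
    congr 1
    omega
  -- the period is long
  have hP13 : 13 ≤ P := by
    by_contra hc
    obtain ⟨j, hj, hne⟩ := Ph_cube (ext v) hP (by omega) o
    exact hne (hper j (by omega))
  -- the period is a multiple of `13`
  set t := (o + 12) / 13 with ht
  have ht1 : o ≤ 13 * t := by omega
  have ht2 : 13 * t < o + 13 := by omega
  obtain ⟨k, hk⟩ : 13 ∣ P := by
    have h3 : 13 ∣ 13 * t + P := by
      apply Ph_sync (ext v) (ext v t)
      intro j hj
      rw [← Ph_at _ t hj]
      have := hper (13 * t + j - o) (by omega)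
      rw [show o + (13 * t + j - o) = 13 * t + j by omega] at this
      rw [this]
      congr 1
      omega
    exact (Nat.dvd_add_right (dvd_mul_right _ _)).1 h3
  have hn'P : n' * P = 13 * (n' * k) := by rw [hk]; ring
  -- the place of the power
  obtain ⟨a, ha1, ha2, ha3, hreg⟩ : ∃ a, 13 * a ≤ o + P ∧ o ≤ 13 * a + P ∧
      a + (n' + 1) * k ≤ v.length ∧
      ∀ s, a ≤ s → s < a + n' * k → v[s]? = v[s + k]? := by
    have hsucc : (n' + 1) * k = n' * k + k := Nat.succ_mul _ _
    by_cases he : 7 ≤ 13 * t - o
    · refine ⟨t - 1, by omega, by omega, by omega, ?_⟩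
      intro s hs1 hs2
      have hb : 13 * (s + 1) ≤ o + n' * P := by omega
      rw [ext_get (by omega), ext_get (by omega), Option.some.injEq]
      apply cdn_suffix
      intro j hj
      rw [← Ph_at _ s (by omega), ← Ph_at _ (s + k) (by omega)]
      have := hper (13 * s + (6 + j) - o) (by omega)
      rw [show o + (13 * s + (6 + j) - o) = 13 * s + (6 + j) by omega] at this
      rw [this]
      congr 1
      omega
    · refine ⟨t, by omega, by omega, by omega, ?_⟩
      intro s hs1 hs2
      rw [ext_get (by omega), ext_get (by omega), Option.some.injEq]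
      apply cdn_prefix
      intro j hj
      rw [← Ph_at _ s (by omega), ← Ph_at _ (s + k) (by omega)]
      have := hper (13 * s + j - o) (by omega)
      rw [show o + (13 * s + j - o) = 13 * s + j by omega] at this
      rw [this]
      congr 1
      omega
  have hv : v = v.take a ++ pw ((v.drop a).take k) n ++ v.drop (a + n * k) := by
    have := power_of_per n' a ha3 hreg
    rw [hn', List.append_assoc, ← this, List.take_append_drop]
  have hyl : ((v.drop a).take k).length = k := by
    rw [List.length_take, List.length_drop]
    have : k ≤ (n' + 1) * k := by rw [Nat.succ_mul]; omega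
    omega
  have hv1 : (v.take a).length = a := by
    rw [List.length_take]
    omega
  refine ⟨v.take a ++ pw ((v.drop a).take k) (n + m) ++ v.drop (a + n * k), ?_, _, _, _, hv, rfl⟩
  rw [h2, enc_append, enc_append, enc_pw]
  symm
  refine shift_two (n := n) (by omega) ?_ ?_ ?_ ?_ (n + m)
  · rw [enc_length, hyl, ← hPd, hk]
  · rw [enc_length, hv1]
    omega
  · rw [enc_length, hv1]
    omega
  · rw [← enc_pw, ← enc_append, ← enc_append, ← hv]
    exact h1

theorem enc_lang {n m : ℕ} (hn : 3 ≤ n) {v w : List (Fin 6)} :
    enc v ∈ Lang n m (enc w) ↔ v ∈ Lang n m w := by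
  constructor
  · intro h
    have key : ∀ V : List Bool, Relation.ReflTransGen (Step n m) (enc w) V →
        ∃ v, V = enc v ∧ v ∈ Lang n m w := by
      intro V hV
      induction hV with
      | refl => exact ⟨w, rfl, lang_refl _⟩
      | tail _ hs ih =>
        obtain ⟨u, rfl, hu⟩ := ih
        obtain ⟨u', rfl, hs'⟩ := enc_step hn hs
        exact ⟨u', rfl, lang_trans hu (Relation.ReflTransGen.single hs')⟩
    obtain ⟨u, hu, hu'⟩ := key _ h
    rw [enc_inj hu]
    exact hu'
  · intro h
    have h' : Relation.ReflTransGen (Step n m) w v := h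
    clear h
    induction h' with
    | refl => exact lang_refl _
    | tail _ hs ih =>
      obtain ⟨p, x, q, h1, h2⟩ := hs
      refine lang_trans ih (Relation.ReflTransGen.single ⟨enc p, enc x, enc q, ?_, ?_⟩)
      · rw [h1, enc_append, enc_append, enc_pw]
      · rw [h2, enc_append, enc_append, enc_pw]

end Pool.Agent.W645.FB
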