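import Pool.Agent.H344R3.FB.NonReg

/-!
# Words that are cut at the occurrences of a letter

`mk g [y₁, y₂, …]` is the word `g y₁ g y₂ ⋯`.  If no `yᵢ` contains `g`, then a power `x ^ n` inside
this word either lies in one of the `yᵢ`, or comes from an `(n - 1)`-st power of lists.
-/

set_option autoImplicit false

namespace Pool.Agent.W645.FB

open Pool.Agent.H344R3.FB

variable {α : Type*}

/-- the word `g y₁ g y₂ ⋯` -/
def mk (g : α) (Y : List (List α)) : List α := (Y.map (fun y => g :: y)).flatten

@[simp] theorem mk_nil (g : α) : mk g [] = [] := rfl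

@[simp] theorem mk_cons (g : α) (y : List α) (Y : List (List α)) :
    mk g (y :: Y) = g :: (y ++ mk g Y) := by simp [mk]

@[simp] theorem mk_append (g : α) (Y Z : List (List α)) : mk g (Y ++ Z) = mk g Y ++ mk g Z := by
  simp [mk]

theorem mk_pw (g : α) (Y : List (List α)) (k : ℕ) : mk g (pw Y k) = pw (mk g Y) k := by
  induction k with
  | zero => simp
  | succ k ih => rw [pw_succ, pw_succ, mk_append, ih]

theorem mk_eq_nil {g : α} {Y : List (List α)} (h : mk g Y = []) : Y = [] := by
  cases Y with
  | nil => rfl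
  | cons y Y => simp at h

/-- no entry contains the marker -/
def Fr (g : α) (Y : List (List α)) : Prop := ∀ y ∈ Y, g ∉ y

theorem Fr.left {g : α} {Y Z : List (List α)} (h : Fr g (Y ++ Z)) : Fr g Y :=
  fun y hy => h y (List.mem_append_left _ hy)

theorem Fr.right {g : α} {Y Z : List (List α)} (h : Fr g (Y ++ Z)) : Fr g Z :=
  fun y hy => h y (List.mem_append_right _ hy)

theorem Fr.append {g : α} {Y Z : List (List α)} (h : Fr g Y) (h' : Fr g Z) : Fr g (Y ++ Z) := by
  intro y hy
  rcases List.mem_append.1 hy with h1 | h1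
  · exact h y h1
  · exact h' y h1

theorem mk_split {g : α} {Y : List (List α)} (hY : Fr g Y) : ∀ {s r : List α},
    mk g Y = s ++ g :: r → ∃ Y1 Y2, Y = Y1 ++ Y2 ∧ s = mk g Y1 ∧ g :: r = mk g Y2 := by
  induction Y with
  | nil => intro s r h; simp at h
  | cons y Y ih =>
    intro s r h
    rw [mk_cons] at h
    cases s with
    | nil => exact ⟨[], y :: Y, rfl, rfl, by rw [mk_cons, h]; rfl⟩
    | cons g' s =>
      rw [List.cons_append, List.cons.injEq] at h
      obtain ⟨rfl, h⟩ := h
      rcases List.append_eq_append_iff.1 h with ⟨a, h1, h2⟩ | ⟨c, h1, h2⟩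
      · obtain ⟨Y1, Y2, e1, e2, e3⟩ := ih (fun z hz => hY z (by simp [hz])) h2
        exact ⟨y :: Y1, Y2, by rw [e1]; rfl, by rw [mk_cons, h1, e2], e3⟩
      · cases c with
        | nil =>
          exact ⟨[y], Y, rfl, by rw [h1]; simp, by rw [h2]; rfl⟩
        | cons c0 c =>
          rw [List.cons_append, List.cons.injEq] at h2
          obtain ⟨rfl, h2⟩ := h2
          exact absurd (by rw [h1]; simp) (hY y (by simp))

theorem mk_inj {g : α} {Y : List (List α)} (hY : Fr g Y) : ∀ {Z : List (List α)}, Fr g Z →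
    mk g Y = mk g Z → Y = Z := by
  induction Y with
  | nil => intro Z _ h; exact (mk_eq_nil h.symm).symm
  | cons y Y ih =>
    intro Z hZ h
    cases Z with
    | nil => simp at h
    | cons z Z =>
      rw [mk_cons, mk_cons, List.cons.injEq] at h
      have h := h.2
      have key : y = z := by
        rcases List.append_eq_append_iff.1 h with ⟨a, h1, h2⟩ | ⟨c, h1, h2⟩
        · cases a with
          | nil => rw [h1]; simp
          | cons a0 a =>
            cases Y with
            | nil => simp at h2
            | cons y' Y =>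
              rw [mk_cons, List.cons_append, List.cons.injEq] at h2
              exact absurd (by rw [h1, h2.1]; simp) (hZ z (by simp))
        · cases c with
          | nil => rw [h1]; simp
          | cons a0 a =>
            cases Z with
            | nil => simp at h2
            | cons y' Y =>
              rw [mk_cons, List.cons_append, List.cons.injEq] at h2
              exact absurd (by rw [h1, h2.1]; simp) (hY y (by simp))
      subst key
      rw [ih (fun z hz => hY z (by simp [hz])) (fun z hz => hZ z (by simp [hz]))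
        (List.append_cancel_left h)]

theorem mk_free {g : α} {z : List α} (hz : g ∉ z) (hz0 : z ≠ []) {Y : List (List α)} :
    ∀ {p q : List α}, mk g Y = p ++ (z ++ q) → ∃ Y1 y Y2 p' q', Y = Y1 ++ y :: Y2 ∧
      y = p' ++ (z ++ q') ∧ p = mk g Y1 ++ g :: p' ∧ q = q' ++ mk g Y2 := by
  induction Y with
  | nil => intro p q h; simp at h; exact absurd h.2.1 hz0
  | cons y Y ih =>
    intro p q h
    rw [mk_cons] at h
    cases p with
    | nil =>
      cases z with
      | nil => exact absurd rfl hz0
      | cons z0 z =>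
        rw [List.nil_append, List.cons_append, List.cons.injEq] at h
        exact absurd (by rw [h.1]; simp) hz
    | cons g' p =>
      rw [List.cons_append, List.cons.injEq] at h
      obtain ⟨rfl, h⟩ := h
      rcases List.append_eq_append_iff.1 h with ⟨a, h1, h2⟩ | ⟨c, h1, h2⟩
      · obtain ⟨Y1, y', Y2, p', q', e1, e2, e3, e4⟩ := ih h2
        exact ⟨y :: Y1, y', Y2, p', q', by rw [e1]; rfl, e2, by rw [mk_cons, h1, e3]; simp, e4⟩
      · rcases List.append_eq_append_iff.1 h2 with ⟨a, h3, h4⟩ | ⟨a, h3, h4⟩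
        · exact ⟨[], y, Y, p, a, rfl, by rw [h1, h3], by simp, h4⟩
        · cases a with
          | nil =>
            exact ⟨[], y, Y, p, [], rfl, by rw [h1, h3]; simp, by simp, by rw [h4]; rfl⟩
          | cons a0 a =>
            cases Y with
            | nil => simp at h4
            | cons y' Y =>
              rw [mk_cons, List.cons_append, List.cons.injEq] at h4
              exact absurd (by rw [h3, ← h4.1]; simp) hz

theorem pw_rot (x y : List α) (k : ℕ) : pw (x ++ y) (k + 1) = x ++ (pw (y ++ x) k ++ y) := by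
  induction k with
  | zero => rw [pw_one]; simp
  | succ k ih =>
    rw [pw_succ, ih, pw_succ]
    simp

theorem mk_power {g : α} {Y : List (List α)} (hY : Fr g Y) {h h' : List α} (hh : h = g :: h')
    {r : List α} (k : ℕ) : ∀ {s : List α}, mk g Y = s ++ (pw h (k + 1) ++ g :: r) →
    ∃ Y1 y Y2, Y = Y1 ++ (pw y (k + 1) ++ Y2) ∧ s = mk g Y1 ∧ h = mk g y ∧ g :: r = mk g Y2 := by
  induction k generalizing r with
  | zero =>
    intro s e
    rw [pw_one, hh] at e
    obtain ⟨Y1, Z, e1, e2, e3⟩ := mk_split hY e
    rw [e1] at hY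
    obtain ⟨y, Y2, e4, e5, e6⟩ := mk_split (s := h) (r := r) hY.right (by rw [← e3, hh]; simp)
    exact ⟨Y1, y, Y2, by rw [e1, e4, pw_one], e2, e5, e6⟩
  | succ k ih =>
    intro s e
    rw [pw_succ, List.append_assoc, ← List.append_assoc] at e
    obtain ⟨Y1', y, Y2, e1, e2, e3, e4⟩ := ih e
    rw [hh] at e2
    rw [e1] at hY
    obtain ⟨Y1, y', e5, e6, e7⟩ := mk_split hY.left e2.symm
    have hy : y' = y := by
      apply mk_inj (g := g)
      · have := hY.left
        rw [e5] at this
        exact this.right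
      · have := hY.right.left
        rw [pw_succ] at this
        exact this.left
      · rw [← e7, ← e3, hh]
    subst hy
    refine ⟨Y1, y', Y2, ?_, e6, by rw [hh, e7], e4⟩
    rw [e1, e5, pw_succ y' (k + 1)]
    simp

/-- the two ways in which a power can occur -/
theorem mk_parse {g : α} {Y : List (List α)} (hY : Fr g Y) {n : ℕ} (hn : 2 ≤ n) {x p q : List α}
    (hx : x ≠ []) (h : mk g Y = p ++ pw x n ++ q) :
    (∃ Y1 y Y2 p' q', Y = Y1 ++ y :: Y2 ∧ y = p' ++ pw x n ++ q' ∧
      ∀ k, p ++ pw x k ++ q = mk g (Y1 ++ (p' ++ pw x k ++ q') :: Y2)) ∨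
    (∃ Y1 y Y2, y ≠ [] ∧ Y2 ≠ [] ∧ Y = Y1 ++ pw y (n - 1) ++ Y2 ∧
      ∀ k, p ++ pw x (k + 1) ++ q = mk g (Y1 ++ pw y k ++ Y2)) := by
  by_cases hg : g ∈ x
  · right
    obtain ⟨x', x'', hx', -⟩ := List.eq_append_cons_of_mem hg
    obtain ⟨k, rfl⟩ : ∃ k, n = k + 2 := ⟨n - 2, by omega⟩
    have e : mk g Y = (p ++ x') ++ (pw (g :: (x'' ++ x')) (k + 1) ++ g :: (x'' ++ q)) := by
      rw [h, hx', pw_rot]
      simp
    obtain ⟨Y1, y, Y2, e1, e2, e3, e4⟩ := mk_power hY rfl k e
    refine ⟨Y1, y, Y2, ?_, ?_, ?_, ?_⟩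
    · rintro rfl
      simp at e3
    · rintro rfl
      simp at e4
    · rw [e1, show k + 2 - 1 = k + 1 by omega]
      simp
    · intro j
      rw [hx', pw_rot, mk_append, mk_append, mk_pw, ← e2, ← e3, ← e4]
      simp
  · left
    have hz : g ∉ pw x n := by
      intro h
      obtain ⟨l, h1, h2⟩ := List.mem_flatten.1 h
      rw [List.eq_of_mem_replicate h1] at h2
      exact hg h2
    have hz0 : pw x n ≠ [] := by
      intro h
      have := congrArg List.length h
      rw [pw_length] at this
      have h3 : 0 < x.length := List.length_pos_of_ne_nil hx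
      have : 0 < n * x.length := Nat.mul_pos (by omega) h3
      rw [List.length_nil] at *
      omega
    rw [List.append_assoc] at h
    obtain ⟨Y1, y, Y2, p', q', e1, e2, e3, e4⟩ := mk_free hz hz0 h
    refine ⟨Y1, y, Y2, p', q', e1, by rw [e2]; simp, ?_⟩
    intro k
    rw [e3, e4, mk_append, mk_cons]
    simp

end Pool.Agent.W645.FB
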