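import Pool.Agent.W645.FB.Tok
import Pool.Agent.Helper131.Tern

/-!
# Rigid words of tokens

`T K` is an infinite sequence of tokens.  In its last two coordinates it is periodic with period
`2 * K + 1`; in every period the token number `K` is one of two types in its first two
coordinates, following the Thue-Morse word.
-/

set_option autoImplicit false

namespace Pool.Agent.W645.FB

open Pool.Agent.H344R3.FB Pool.Agent.Helper131.Tern

/-- the sequence of tokens -/
def T (K : ℕ) (i : ℕ) : Pt :=
  ![if i % (2 * K + 1) = K then (if tm (i / (2 * K + 1)) then 1 else 0) else 1,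
    if i % (2 * K + 1) = K then (if tm (i / (2 * K + 1)) then 0 else 1) else 1,
    i % (2 * K + 1), 2 * K - i % (2 * K + 1)]

/-- the tokens that can occur -/
def GT (K : ℕ) (u : Pt) : Prop := 1 ≤ u 0 + u 1 ∧ 2 * K ≤ u 2 + u 3

theorem GT.mono {K : ℕ} {u v : Pt} (h : u ≤ v) (hu : GT K u) : GT K v := by
  have h0 : u 0 ≤ v 0 := h 0
  have h1 : u 1 ≤ v 1 := h 1
  have h2 : u 2 ≤ v 2 := h 2
  have h3 : u 3 ≤ v 3 := h 3
  unfold GT at *
  omega

theorem T_low {K i : ℕ} {u : Pt} (h : u ≤ T K i) (hu : GT K u) :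
    u 2 = i % (2 * K + 1) ∧ (i % (2 * K + 1) = K →
      u 0 = if tm (i / (2 * K + 1)) then 1 else 0) := by
  have h0 := h 0
  have h1 := h 1
  have h2 := h 2
  have h3 := h 3
  have hr : i % (2 * K + 1) < 2 * K + 1 := Nat.mod_lt _ (by omega)
  unfold GT at hu
  simp only [T, Matrix.cons_val] at h0 h1 h2 h3
  refine ⟨by omega, fun hK => ?_⟩
  rw [if_pos hK] at h0 h1
  by_cases ht : tm (i / (2 * K + 1)) = true
  · simp only [ht, if_true] at h0 h1 ⊢
    omega
  · simp only [ht] at h0 h1 ⊢
    simp at h0 h1 ⊢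
    omega

/-- the first `N` tokens -/
def TL (K N : ℕ) : List Pt := (List.range N).map (T K)

theorem TL_length (K N : ℕ) : (TL K N).length = N := by simp [TL]

theorem TL_low {K N : ℕ} {l : List Pt} (h : List.Forall₂ (· ≤ ·) l (TL K N))
    (hG : ∀ u ∈ l, GT K u) {i : ℕ} (hi : i < N) : ∃ u, l[i]? = some u ∧
      u 2 = i % (2 * K + 1) ∧ (i % (2 * K + 1) = K →
      u 0 = if tm (i / (2 * K + 1)) then 1 else 0) := by
  have hlen : l.length = N := by rw [h.length_eq, TL_length]
  have h1 := List.forall₂_iff_get.1 h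
  have h2 := h1.2 i (by omega) (by rw [TL_length]; exact hi)
  refine ⟨l[i]'(by omega), List.getElem?_eq_getElem (by omega), T_low ?_ (hG _ (List.getElem_mem _))⟩
  simpa [TL] using h2

theorem no_cube {K N : ℕ} {l : List Pt} (h : List.Forall₂ (· ≤ ·) l (TL K N))
    (hG : ∀ u ∈ l, GT K u) (l1 y l2 : List Pt) (hy : y ≠ []) : l ≠ l1 ++ pw y 3 ++ l2 := by
  intro he
  have hlen : l.length = N := by rw [h.length_eq, TL_length]
  have hy0 : 0 < y.length := List.length_pos_of_ne_nil hy
  have hl3 : (pw y 3).length = 3 * y.length := pw_length _ _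
  have hlen2 : l.length = l1.length + 3 * y.length + l2.length := by
    rw [he]
    simp only [List.length_append, hl3]
  have hper : ∀ i, i < 2 * y.length → l[l1.length + i]? = l[l1.length + i + y.length]? := by
    intro i hi
    have h1 := per_pw y 3 i (by rw [hl3]; omega)
    have e : ∀ j, j < 3 * y.length → l[l1.length + j]? = (pw y 3)[j]? := by
      intro j hj
      rw [he, List.append_assoc, List.getElem?_append_right (by omega),
        List.getElem?_append_left (by omega)]
      congr 1
      omega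
    rw [e i (by omega), show l1.length + i + y.length = l1.length + (i + y.length) by omega,
      e _ (by omega)]
    exact h1
  set Q := 2 * K + 1 with hQ
  have hQ0 : 0 < Q := by omega
  have heq : ∀ i, l1.length ≤ i → i < l1.length + 2 * y.length →
      i % Q = (i + y.length) % Q ∧
      (i % Q = K → tm (i / Q) = tm ((i + y.length) / Q)) := by
    intro i h1 h2
    obtain ⟨u, e1, e2, e3⟩ := TL_low h hG (show i < N by omega)
    obtain ⟨v, f1, f2, f3⟩ := TL_low h hG (show i + y.length < N by omega)
    rw [← hQ] at e2 e3 f2 f3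
    have h3 := hper (i - l1.length) (by omega)
    rw [show l1.length + (i - l1.length) = i by omega, e1, f1, Option.some.injEq] at h3
    subst h3
    refine ⟨by omega, fun hK => ?_⟩
    have h4 := e3 hK
    rw [f3 (by omega)] at h4
    revert h4
    cases tm (i / Q) <;> cases tm ((i + y.length) / Q) <;> simp
  have hdvd : Q ∣ y.length := by
    have := (heq l1.length (le_refl _) (by omega)).1
    have h2 := (Nat.modEq_iff_dvd' (show l1.length ≤ l1.length + y.length by omega)).1 this
    rwa [Nat.add_sub_cancel_left] at h2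
  obtain ⟨k, hk⟩ := hdvd
  have hk0 : 0 < k := Nat.pos_of_ne_zero fun h => by rw [h] at hk; omega
  -- the first position `≡ K`
  set a := (l1.length + K) / Q with ha
  have ha1 : Q * a ≤ l1.length + K := Nat.mul_div_le _ _
  have ha2 : l1.length + K < Q * a + Q := by
    have := Nat.lt_mul_div_succ (l1.length + K) hQ0
    rwa [Nat.mul_succ] at this
  refine tm_overlap_free k hk0 a ?_
  intro j hj
  have hjk : Q * j ≤ Q * k := Nat.mul_le_mul_left _ hj
  have hQk : Q ≤ Q * k := Nat.le_mul_of_pos_right _ hk0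
  have h1 := (heq (Q * (a + j) + K) (by rw [Nat.mul_add]; omega) (by
    rw [Nat.mul_add, hk]; omega)).2 (by
      rw [Nat.mul_add_mod]; exact Nat.mod_eq_of_lt (by omega))
  have h2 : (Q * (a + j) + K) / Q = a + j := by
    rw [Nat.mul_add_div hQ0, Nat.div_eq_of_lt (by omega), Nat.add_zero]
  have h3 : (Q * (a + j) + K + y.length) / Q = a + k + j := by
    rw [hk, show Q * (a + j) + K + Q * k = Q * (a + k + j) + K by ring, Nat.mul_add_div hQ0,
      Nat.div_eq_of_lt (by omega), Nat.add_zero]
  rw [h2, h3] at h1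
  exact h1

/-- all words derived from good token words are good token words -/
theorem lang_tw {n m : ℕ} (hn : 2 ≤ n) (hm : 1 ≤ m) {G : Pt → Prop}
    (hG : ∀ u v, u ≤ v → G u → G v) {l : List Pt} (hl : ∀ u ∈ l, G u) {v : List (Fin 6)}
    (h : v ∈ Lang n m (tw n m l)) : ∃ l', v = tw n m l' ∧ ∀ u ∈ l', G u := by
  have h' : Relation.ReflTransGen (Step n m) (tw n m l) v := h
  clear h
  induction h' with
  | refl => exact ⟨l, rfl, hl⟩
  | tail _ hs ih =>
    obtain ⟨l1, rfl, h1⟩ := ih
    obtain ⟨l2, rfl, h2⟩ := tw_step hn hm hs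
    refine ⟨l2, rfl, ?_⟩
    rcases h2 with h2 | ⟨x, y, z, -, e1, e2⟩
    · intro u hu
      obtain ⟨i, hi, rfl⟩ := List.mem_iff_getElem.1 hu
      have h3 := List.forall₂_iff_get.1 h2
      have h4 := h3.2 i (by rw [h3.1]; exact hi) hi
      exact hG _ _ h4 (h1 _ (List.get_mem _ _))
    · intro u hu
      apply h1
      rw [e2] at hu
      rw [e1]
      obtain ⟨k, hk⟩ : ∃ k, n - 1 = k + 1 := ⟨n - 2, by omega⟩
      simp only [List.mem_append] at hu ⊢
      rcases hu with (hu | hu) | hu
      · exact Or.inl (Or.inl hu)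
      · refine Or.inl (Or.inr ?_)
        rw [hk, pw_succ]
        obtain ⟨w, hw1, hw2⟩ := List.mem_flatten.1 hu
        rw [List.eq_of_mem_replicate hw1] at hw2
        exact List.mem_append_left _ hw2
      · exact Or.inr hu

theorem forall₂_le_trans {l l' l'' : List Pt} (h : List.Forall₂ (· ≤ ·) l l')
    (h' : List.Forall₂ (· ≤ ·) l' l'') : List.Forall₂ (· ≤ ·) l l'' := by
  induction h generalizing l'' with
  | nil => cases h'; exact List.Forall₂.nil
  | cons h1 _ ih =>
    cases h' with
    | cons h2 h3 => exact List.Forall₂.cons (le_trans h1 h2) (ih h3)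

theorem rigid {n m K N : ℕ} (hn : 2 ≤ n) (hm : 1 ≤ m) (hnm : 4 ≤ n + m) {l : List Pt}
    (hl : ∀ u ∈ l, GT K u) (h : tw n m (TL K N) ∈ Lang n m (tw n m l)) : l.length = N := by
  have key : ∀ v : List (Fin 6), Relation.ReflTransGen (Step n m) v (tw n m (TL K N)) →
      ∀ l : List Pt, v = tw n m l → (∀ u ∈ l, GT K u) → List.Forall₂ (· ≤ ·) l (TL K N) := by
    intro v hv
    induction hv using Relation.ReflTransGen.head_induction_on with
    | refl =>
      intro l h _
      rw [tw_inj hm h]
      exact List.forall₂_refl _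
    | head hs _ ih =>
      intro l h1 h2
      subst h1
      obtain ⟨l', e1, e2⟩ := tw_step hn hm hs
      have h3 : ∀ u ∈ l', GT K u := by
        obtain ⟨l'', e3, e4⟩ := lang_tw hn hm (G := GT K) (fun u v huv hu => hu.mono huv) h2
          (Relation.ReflTransGen.single hs)
        rw [e1] at e3
        rw [tw_inj hm e3]
        exact e4
      have h4 := ih l' e1 h3
      rcases e2 with e2 | ⟨l1, y, l2, hy, -, e3⟩
      · exact forall₂_le_trans e2 h4
      · exfalso
        obtain ⟨j, hj⟩ : ∃ j, n - 1 + m = 3 + j := ⟨n - 1 + m - 3, by omega⟩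
        refine no_cube h4 h3 l1 y (pw y j ++ l2) hy ?_
        rw [e3, hj, pw_add]
        simp
  rw [(key _ h l rfl hl).length_eq, TL_length]

end Pool.Agent.W645.FB
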