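import Pool.Agent.W645.FB.Mark

/-!
# Tokens

A token is the marker `4` followed by a sorted word in the letters `0, 1, 2, 3`, in which the
letter `i` occurs `n + m * u i` times.
-/

set_option autoImplicit false

namespace Pool.Agent.W645.FB

open Pool.Agent.H344R3.FB

/-- the parameters of a token -/
abbrev Pt := Fin 4 → ℕ

/-- the embedding of the four counter letters -/
def ct (i : Fin 4) : Fin 6 := ⟨i.1, by omega⟩

/-- the sorted word with `n + m * u i` letters `i` -/
def body (n m : ℕ) (u : Pt) : List (Fin 6) :=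
  List.replicate (n + m * u 0) 0 ++ (List.replicate (n + m * u 1) 1 ++
    (List.replicate (n + m * u 2) 2 ++ List.replicate (n + m * u 3) 3))

theorem body_mem {n m : ℕ} {u : Pt} {c : Fin 6} (h : c ∈ body n m u) : c < 4 := by
  simp only [body, List.mem_append, List.mem_replicate] at h
  rcases h with h | h | h | h <;> rw [h.2] <;> decide

theorem body_count (n m : ℕ) (u : Pt) (i : Fin 4) :
    (body n m u).count (ct i) = n + m * u i := by
  fin_cases i <;> simp [body, ct, List.count_replicate]

theorem body_sorted (n m : ℕ) (u : Pt) : (body n m u).Pairwise (· ≤ ·) := by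
  simp only [body, List.pairwise_append, List.pairwise_replicate, List.mem_append,
    List.mem_replicate]
  refine ⟨Or.inr (le_refl _), ⟨Or.inr (le_refl _), ⟨Or.inr (le_refl _), Or.inr (le_refl _), ?_⟩,
    ?_⟩, ?_⟩
  · rintro a ⟨-, rfl⟩ b ⟨-, rfl⟩; decide
  · rintro a ⟨-, rfl⟩ b (⟨-, rfl⟩ | ⟨-, rfl⟩) <;> decide
  · rintro a ⟨-, rfl⟩ b (⟨-, rfl⟩ | ⟨-, rfl⟩ | ⟨-, rfl⟩) <;> decide

theorem body_inj {n m : ℕ} (hm : 1 ≤ m) {u v : Pt} (h : body n m u = body n m v) : u = v := by
  funext i
  have h1 := body_count n m u i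
  rw [h, body_count] at h1
  have h2 : m * v i = m * u i := by omega
  exact (Nat.eq_of_mul_eq_mul_left (by omega) h2).symm

theorem const_of_sorted_square {x : List (Fin 6)} (h : (x ++ x).Pairwise (· ≤ ·)) (hx : x ≠ []) :
    ∃ c k, 0 < k ∧ x = List.replicate k c := by
  obtain ⟨c, x', rfl⟩ := List.exists_cons_of_ne_nil hx
  refine ⟨c, (c :: x').length, by simp, ?_⟩
  rw [List.pairwise_append] at h
  rw [List.eq_replicate_iff]
  refine ⟨rfl, fun b hb => ?_⟩
  have h1 : b ≤ c := h.2.2 b hb c (by simp)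
  rcases List.mem_cons.1 hb with h2 | h2
  · exact h2
  · exact le_antisymm h1 (List.rel_of_pairwise_cons h.1 h2)

theorem pw_replicate {α : Type*} (c : α) (k j : ℕ) :
    pw (List.replicate k c) j = List.replicate (j * k) c := by
  induction j with
  | zero => simp
  | succ j ih =>
    rw [pw_succ, ih, List.replicate_append_replicate]
    congr 1
    ring

theorem body_step {n m : ℕ} (hn : 2 ≤ n) {u : Pt} {p x q : List (Fin 6)} (hx : x ≠ [])
    (h : body n m u = p ++ pw x n ++ q) :
    ∃ v : Pt, u ≤ v ∧ p ++ pw x (n + m) ++ q = body n m v := by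
  have hs := body_sorted n m u
  have hs' := hs
  rw [h] at hs
  obtain ⟨k0, rfl⟩ : ∃ k0, n = k0 + 2 := ⟨n - 2, by omega⟩
  have hsx : (x ++ x).Pairwise (· ≤ ·) := by
    refine List.Pairwise.sublist ?_ hs
    rw [pw_succ, pw_succ]
    have : p ++ (x ++ (x ++ pw x k0)) ++ q = p ++ ((x ++ x) ++ (pw x k0 ++ q)) := by simp
    rw [this]
    exact (List.sublist_append_left _ _).trans (List.sublist_append_right _ _)
  obtain ⟨c, k, hk, rfl⟩ := const_of_sorted_square hsx hx
  have hcm : c ∈ body (k0 + 2) m u := by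
    rw [h, pw_replicate]
    simp
    omega
  obtain ⟨i, rfl⟩ : ∃ i : Fin 4, c = ct i := by
    have := body_mem hcm
    refine ⟨⟨c.1, this⟩, ?_⟩
    ext
    rfl
  refine ⟨Function.update u i (u i + k), ?_, ?_⟩
  · intro j
    by_cases hj : j = i
    · subst hj; simp
    · rw [Function.update_of_ne hj]
  · apply List.Perm.eq_of_pairwise (le := (· ≤ ·))
    · intro a b _ _ h1 h2; exact le_antisymm h1 h2
    · rw [pw_replicate] at hs ⊢
      simp only [List.pairwise_append, List.pairwise_replicate, List.mem_append,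
        List.mem_replicate] at hs ⊢
      obtain ⟨⟨h1, h2, h3⟩, h4, h5⟩ := hs
      have hne : (k0 + 2) * k ≠ 0 := by positivity
      refine ⟨⟨h1, Or.inr (le_refl _), ?_⟩, h4, ?_⟩
      · intro a ha b hb
        exact h3 a ha b ⟨hne, hb.2⟩
      · intro a ha b hb
        rcases ha with ha | ha
        · exact h5 a (Or.inl ha) b hb
        · exact h5 a (Or.inr ⟨hne, ha.2⟩) b hb
    · exact body_sorted _ _ _
    · rw [List.perm_iff_count]
      intro d
      have hc : (body (k0 + 2) m u).count d =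
          (p ++ pw (List.replicate k (ct i)) (k0 + 2) ++ q).count d := by rw [h]
      rw [pw_replicate] at hc ⊢
      simp only [List.count_append, List.count_replicate] at hc ⊢
      by_cases hd : d < 4
      · obtain ⟨j, rfl⟩ : ∃ j : Fin 4, d = ct j := ⟨⟨d.1, hd⟩, by ext; rfl⟩
        rw [body_count] at hc ⊢
        by_cases hj : j = i
        · subst hj
          rw [Function.update_self]
          simp only [beq_self_eq_true, if_true] at hc ⊢
          nlinarith
        · rw [Function.update_of_ne hj]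
          have hne : ¬ (ct i == ct j) = true := by
            simp only [beq_iff_eq, ct, Fin.mk.injEq]
            intro h; exact hj (Fin.ext h.symm)
          rw [if_neg hne] at hc ⊢
          omega
      · have hd1 : ∀ (M : ℕ) (v : Pt), (body M m v).count d = 0 := fun M v =>
          List.count_eq_zero_of_not_mem fun h => hd (body_mem h)
        rw [hd1] at hc ⊢
        have hne : ¬ (ct i == d) = true := by
          simp only [beq_iff_eq]
          rintro rfl
          exact hd (body_mem hcm)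
        rw [if_neg hne] at hc ⊢
        omega

/-- the word of a list of tokens -/
def tw (n m : ℕ) (l : List Pt) : List (Fin 6) := mk 4 (l.map (body n m))

theorem tw_append (n m : ℕ) (l l' : List Pt) : tw n m (l ++ l') = tw n m l ++ tw n m l' := by
  simp [tw]

@[simp] theorem tw_nil (n m : ℕ) : tw n m [] = [] := rfl

theorem map_pw {α β : Type*} (f : α → β) (x : List α) (k : ℕ) :
    (pw x k).map f = pw (x.map f) k := by
  induction k with
  | zero => simp
  | succ k ih => rw [pw_succ, pw_succ, List.map_append, ih]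

theorem tw_pw (n m : ℕ) (l : List Pt) (k : ℕ) : tw n m (pw l k) = pw (tw n m l) k := by
  rw [tw, map_pw, mk_pw]
  rfl

theorem fr_body (n m : ℕ) (l : List Pt) : Fr 4 (l.map (body n m)) := by
  intro y hy h
  obtain ⟨u, -, rfl⟩ := List.mem_map.1 hy
  exact absurd (body_mem h) (by decide)

theorem tw_inj {n m : ℕ} (hm : 1 ≤ m) {l l' : List Pt} (h : tw n m l = tw n m l') : l = l' := by
  have h1 := mk_inj (fr_body n m l) (fr_body n m l') h
  exact List.map_injective_iff.2 (fun u v huv => body_inj hm huv) h1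

theorem tw_step {n m : ℕ} (hn : 2 ≤ n) (hm : 1 ≤ m) {l : List Pt} {v' : List (Fin 6)}
    (h : Step n m (tw n m l) v') : ∃ l', v' = tw n m l' ∧ (List.Forall₂ (· ≤ ·) l l' ∨
      ∃ l1 y l2, y ≠ [] ∧ l = l1 ++ pw y (n - 1) ++ l2 ∧ l' = l1 ++ pw y (n - 1 + m) ++ l2) := by
  obtain ⟨p, x, q, h1, h2⟩ := h
  by_cases hx : x = []
  · subst hx
    rw [pw_nil] at h1 h2
    exact ⟨l, by rw [h1, h2], Or.inl (List.forall₂_refl _)⟩
  rcases mk_parse (fr_body n m l) hn hx h1 with ⟨Y1, y, Y2, p', q', e1, e2, e3⟩ |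
    ⟨Y1, y, Y2, hy, hY2, e1, e2⟩
  · obtain ⟨l1, l', rfl, e4, e5⟩ := List.map_eq_append_iff.1 e1
    obtain ⟨u, l2, rfl, e6, e7⟩ := List.map_eq_cons_iff.1 e5
    rw [← e6] at e2
    obtain ⟨v, hv, e8⟩ := body_step hn hx e2
    refine ⟨l1 ++ v :: l2, ?_, Or.inl ?_⟩
    · rw [h2, e3, e8, tw, ← e4, ← e7]
      simp
    · exact List.rel_append (List.forall₂_refl _) (List.Forall₂.cons hv (List.forall₂_refl _))
  · obtain ⟨l', l2, rfl, e4, e5⟩ := List.map_eq_append_iff.1 e1
    obtain ⟨l1, l3, rfl, e6, e7⟩ := List.map_eq_append_iff.1 e4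
    obtain ⟨k, hk⟩ : ∃ k, n - 1 = k + 1 := ⟨n - 2, by omega⟩
    rw [hk, pw_succ] at e7
    obtain ⟨z, l4, rfl, e8, e9⟩ := List.map_eq_append_iff.1 e7
    have hl4 : l4 = pw z k := by
      apply List.map_injective_iff.2 (fun u v huv => body_inj (n := n) hm huv)
      rw [e9, map_pw, e8]
    refine ⟨l1 ++ pw z (n - 1 + m) ++ l2, ?_, Or.inr ⟨l1, z, l2, ?_, ?_, rfl⟩⟩
    · rw [h2, show n + m = n - 1 + m + 1 by omega, e2, tw, List.map_append, List.map_append,
        map_pw, e8, e5, e6]
    · rintro rfl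
      exact hy e8.symm
    · rw [hk, pw_succ, hl4]

end Pool.Agent.W645.FB
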