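import Pool.Agent.W645.FB.Rigid

/-!
# The rigid words are derivable
-/

set_option autoImplicit false

namespace Pool.Agent.W645.FB

open Pool.Agent.H344R3.FB Pool.Agent.Helper131.Tern

section general

variable {α : Type*}

theorem lang_refl {n m : ℕ} (w : List α) : w ∈ Lang n m w := Relation.ReflTransGen.refl

theorem lang_append {n m : ℕ} {v w v' w' : List α} (h : v ∈ Lang n m w) (h' : v' ∈ Lang n m w') :
    v ++ v' ∈ Lang n m (w ++ w') := by
  have h1 := lang_context [] w' h
  have h2 := lang_context v [] h'
  rw [List.nil_append, List.nil_append] at h1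
  rw [List.append_nil, List.append_nil] at h2
  exact lang_trans h1 h2

theorem pw_up {n m : ℕ} (x : List α) (j : ℕ) : ∀ k, n ≤ k → pw x (k + m * j) ∈ Lang n m (pw x k) := by
  induction j with
  | zero => intro k _; exact lang_refl _
  | succ j ih =>
    intro k hk
    have h1 : Step n m (pw x (k + m * j)) (pw x (k + m * (j + 1))) := by
      refine ⟨[], x, pw x (k + m * j - n), ?_, ?_⟩
      · rw [List.nil_append, ← pw_add]
        congr 1
        omega
      · rw [List.nil_append, ← pw_add]
        congr 1
        rw [Nat.mul_succ]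
        omega
    exact lang_trans (ih k hk) (Relation.ReflTransGen.single h1)

theorem pw_lang {n m : ℕ} {v w : List α} (h : v ∈ Lang n m w) (k : ℕ) :
    pw v k ∈ Lang n m (pw w k) := by
  induction k with
  | zero => exact lang_refl _
  | succ k ih =>
    rw [pw_succ, pw_succ]
    exact lang_append h ih

end general

theorem run_up {n m : ℕ} (c : Fin 6) {a b : ℕ} (h : a ≤ b) :
    List.replicate (n + m * b) c ∈ Lang n m (List.replicate (n + m * a) c) := by
  have e : ∀ k, List.replicate k c = pw [c] k := by
    intro k
    have := pw_replicate c 1 k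
    rw [Nat.mul_one] at this
    rw [← this]
    rfl
  obtain ⟨j, rfl⟩ := Nat.exists_eq_add_of_le h
  rw [e, e, Nat.mul_add, ← Nat.add_assoc]
  exact pw_up _ _ _ (by omega)

theorem body_up {n m : ℕ} {u v : Pt} (h : u ≤ v) : body n m v ∈ Lang n m (body n m u) :=
  lang_append (run_up _ (h 0)) (lang_append (run_up _ (h 1))
    (lang_append (run_up _ (h 2)) (run_up _ (h 3))))

theorem tw_up {n m : ℕ} {l l' : List Pt} (h : List.Forall₂ (· ≤ ·) l l') :
    tw n m l' ∈ Lang n m (tw n m l) := by
  induction h with
  | nil => exact lang_refl _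
  | @cons u v l l' h1 _ ih =>
    have e : ∀ (w : Pt) (L : List Pt), tw n m (w :: L) = (4 :: body n m w) ++ tw n m L := by
      intro w L
      simp [tw]
    rw [e, e]
    refine lang_append ?_ ih
    have := lang_append (lang_refl (n := n) (m := m) [(4 : Fin 6)]) (body_up (n := n) (m := m) h1)
    simpa using this

/-- block number `M` of the sequence of tokens -/
def blk (K M : ℕ) : List Pt := (List.range (2 * K + 1)).map fun i => T K ((2 * K + 1) * M + i)

theorem TL_succ (K M : ℕ) : TL K ((2 * K + 1) * (M + 1)) = TL K ((2 * K + 1) * M) ++ blk K M := by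
  rw [TL, TL, blk, Nat.mul_succ, List.range_add, List.map_append, List.map_map]
  rfl

theorem TL_up {n m K : ℕ} {w : List (Fin 6)} (h : ∀ M, tw n m (blk K M) ∈ Lang n m w) (M : ℕ) :
    tw n m (TL K ((2 * K + 1) * M)) ∈ Lang n m (pw w M) := by
  induction M with
  | zero => simpa [TL] using lang_refl (n := n) (m := m) ([] : List (Fin 6))
  | succ M ih =>
    rw [TL_succ, tw_append, pw_add, pw_one]
    exact lang_append ih (h M)

theorem T_at {K M i : ℕ} (hi : i < 2 * K + 1) : T K ((2 * K + 1) * M + i) =
    ![if i = K then (if tm M then 1 else 0) else 1,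
    if i = K then (if tm M then 0 else 1) else 1, i, 2 * K - i] := by
  unfold T
  rw [Nat.mul_add_mod, Nat.mod_eq_of_lt hi, Nat.mul_add_div (by omega), Nat.div_eq_of_lt hi,
    Nat.add_zero]

/-- the second seed -/
def P2 (K : ℕ) : List Pt := (List.range (2 * K + 1)).map fun i => ![0, 0, i, 2 * K - i]

theorem P2_up {n m K : ℕ} (M : ℕ) : tw n m (blk K M) ∈ Lang n m (tw n m (P2 K)) := by
  apply tw_up
  rw [P2, blk, List.forall₂_map_left_iff, List.forall₂_map_right_iff, List.forall₂_same]
  intro i hi
  rw [T_at (List.mem_range.1 hi)]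
  intro j
  fin_cases j
  · exact Nat.zero_le _
  · exact Nat.zero_le _
  · exact le_refl _
  · exact le_refl _

/-- the three first types -/
def tp (a b : ℕ) : Pt := ![a, b, 0, 0]

/-- the first seed -/
def P1 (k : ℕ) : List Pt := List.replicate k (tp 1 1) ++ ([tp 1 0] ++ (List.replicate k (tp 1 1) ++
  ([tp 0 1] ++ List.replicate k (tp 1 1))))

theorem tp_le {a b c d : ℕ} (h : a ≤ c) (h' : b ≤ d) : tp a b ≤ tp c d := by
  intro j
  fin_cases j
  · exact h
  · exact h'
  · exact le_refl _
  · exact le_refl _

theorem rep_up {n m k j : ℕ} (hk : n ≤ k) (u : Pt) :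
    tw n m (List.replicate (k + m * j) u) ∈ Lang n m (tw n m (List.replicate k u)) := by
  have e : ∀ k, List.replicate k u = pw [u] k := by
    intro k
    have := pw_replicate u 1 k
    rw [Nat.mul_one] at this
    rw [← this]
    rfl
  rw [e, e, tw_pw, tw_pw]
  exact pw_up _ _ _ hk

theorem P1_up {n m k : ℕ} (hk : k + 1 = (n + 1) * m) (hnk : n ≤ k) (M : ℕ) :
    tw n m (blk (2 * k + 1) M) ∈ Lang n m (tw n m (P1 k)) := by
  have hK : 2 * k + 1 = k + m * (n + 1) := by rw [Nat.mul_comm m]; omega
  have h11 : tp 1 1 ≤ tp 1 1 := le_refl _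
  -- the general form of a block
  have hblk : ∀ x : Pt, x = (if tm M then tp 1 0 else tp 0 1) →
      tw n m (blk (2 * k + 1) M) ∈ Lang n m (tw n m (List.replicate (2 * k + 1) (tp 1 1) ++
        ([x] ++ List.replicate (2 * k + 1) (tp 1 1)))) := by
    intro x hx
    apply tw_up
    rw [List.forall₂_iff_get]
    refine ⟨by simp [blk]; omega, ?_⟩
    intro i h1 h2
    have hi : i < 2 * (2 * k + 1) + 1 := by simpa [blk] using h2
    have e1 : (blk (2 * k + 1) M).get ⟨i, h2⟩ = T (2 * k + 1) ((2 * (2 * k + 1) + 1) * M + i) := by
      simp [blk]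
    rw [e1, T_at hi]
    have e2 : (List.replicate (2 * k + 1) (tp 1 1) ++
        ([x] ++ List.replicate (2 * k + 1) (tp 1 1))).get ⟨i, h1⟩ =
        if i = 2 * k + 1 then x else tp 1 1 := by
      rw [List.get_eq_getElem]
      rcases Nat.lt_trichotomy i (2 * k + 1) with h | h | h
      · rw [List.getElem_append_left (by simpa using h), List.getElem_replicate, if_neg (by omega)]
      · rw [if_pos h, List.getElem_append_right (by simp [h])]
        simp [h]
      · rw [if_neg (by omega), List.getElem_append_right (by simp; omega),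
          List.getElem_append_right (by simp; omega), List.getElem_replicate]
    rw [e2]
    by_cases hiK : i = 2 * k + 1
    · rw [if_pos hiK, hx]
      intro j
      by_cases ht : tm M = true
      · simp only [hiK, ht, if_true]
        fin_cases j <;> simp [tp]
      · simp only [hiK, if_true, if_neg ht]
        fin_cases j <;> simp [tp]
    · rw [if_neg hiK]
      simp only [if_neg hiK]
      intro j
      fin_cases j <;> simp [tp]
  have hrep : List.replicate (2 * k + 1) (tp 1 1) =
      List.replicate k (tp 1 1) ++ ([tp 1 1] ++ List.replicate k (tp 1 1)) := by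
    rw [List.singleton_append, ← List.replicate_succ, List.replicate_append_replicate]
    congr 1
    omega
  by_cases ht : tm M = true
  · refine lang_trans ?_ (hblk (tp 1 0) (by rw [if_pos ht]))
    have h1 : tw n m (List.replicate k (tp 1 1) ++ ([tp 1 0] ++
        List.replicate (2 * k + 1) (tp 1 1))) ∈ Lang n m (tw n m (P1 k)) := by
      apply tw_up
      rw [hrep, P1]
      refine List.rel_append (List.forall₂_refl _) (List.rel_append (List.forall₂_refl _)
        (List.rel_append (List.forall₂_refl _) (List.rel_append ?_ (List.forall₂_refl _))))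
      exact List.Forall₂.cons (tp_le (by omega) (by omega)) List.Forall₂.nil
    refine lang_trans h1 ?_
    rw [tw_append n m (List.replicate (2 * k + 1) (tp 1 1)), tw_append n m (List.replicate k (tp 1 1))]
    refine lang_append ?_ (lang_refl _)
    have := rep_up (m := m) (j := n + 1) hnk (tp 1 1)
    rw [← hK] at this
    exact this
  · refine lang_trans ?_ (hblk (tp 0 1) (by rw [if_neg ht]))
    have h1 : tw n m (List.replicate (2 * k + 1) (tp 1 1) ++ ([tp 0 1] ++
        List.replicate k (tp 1 1))) ∈ Lang n m (tw n m (P1 k)) := by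
      apply tw_up
      rw [hrep, P1]
      simp only [List.append_assoc]
      refine List.rel_append (List.forall₂_refl _) (List.rel_append ?_
        (List.rel_append (List.forall₂_refl _) (List.forall₂_refl _)))
      exact List.Forall₂.cons (tp_le (by omega) (by omega)) List.Forall₂.nil
    refine lang_trans h1 ?_
    rw [tw_append, tw_append, tw_append, tw_append]
    refine lang_append (lang_refl _) (lang_append (lang_refl _) ?_)
    have := rep_up (m := m) (j := n + 1) hnk (tp 1 1)
    rw [← hK] at this
    exact this

end Pool.Agent.W645.FB
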